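import Pool.Agent.H46.SQ.Targets
import Pool.Agent.H75.PS.Count

/-!
# Counting in an interval
-/

set_option autoImplicit false

namespace Pool.Agent.H18.SR

open Finset Pool.Agent.H46.SQ

private theorem cond_mod (d n : ℕ) :
    ((d : ℤ) ∣ (n : ℤ) * ((n : ℤ) ^ 2 - 2)) ↔
      ((d : ℤ) ∣ ((n % d : ℕ) : ℤ) * (((n % d : ℕ) : ℤ) ^ 2 - 2)) := by
  have h1 : ((n % d : ℕ) : ℤ) ≡ (n : ℤ) [ZMOD (d : ℤ)] := by
    push_cast
    exact Int.mod_modEq _ _
  have h2 : ((n % d : ℕ) : ℤ) * (((n % d : ℕ) : ℤ) ^ 2 - 2) ≡ (n : ℤ) * ((n : ℤ) ^ 2 - 2)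
      [ZMOD (d : ℤ)] := h1.mul ((h1.pow 2).sub_right 2)
  exact h2.dvd_iff.symm

theorem sr_CNT : T_CNT := by
  intro a N d hd
  classical
  set R := (Finset.range d).filter (fun r : ℕ => (d : ℤ) ∣ (r : ℤ) * ((r : ℤ) ^ 2 - 2)) with hR
  set S := (Finset.Ico a (a + N)).filter (fun n : ℕ => (d : ℤ) ∣ (n : ℤ) * ((n : ℤ) ^ 2 - 2))
    with hS
  have hmaps : ∀ n ∈ S, n % d ∈ R := by
    intro n hn
    rw [hS, mem_filter] at hn
    rw [hR, mem_filter, mem_range]
    exact ⟨Nat.mod_lt _ hd, (cond_mod d n).1 hn.2⟩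
  have hcard : S.card = ∑ r ∈ R, ((Finset.Ico a (a + N)).filter (fun n => n ≡ r [MOD d])).card := by
    rw [Finset.card_eq_sum_card_fiberwise hmaps]
    refine Finset.sum_congr rfl fun r hr => ?_
    rw [hR, mem_filter, mem_range] at hr
    congr 1
    ext n
    rw [mem_filter, hS, mem_filter, mem_filter]
    have hrr : r % d = r := Nat.mod_eq_of_lt hr.1
    constructor
    · rintro ⟨⟨h1, _⟩, h3⟩
      refine ⟨h1, ?_⟩
      show n % d = r % d
      rw [h3, hrr]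
    · rintro ⟨h1, h2⟩
      have h3 : n % d = r := by
        have : n % d = r % d := h2
        rw [this, hrr]
      refine ⟨⟨h1, ?_⟩, h3⟩
      rw [cond_mod, h3]
      exact hr.2
  have hrho : (rho d : ℝ) = R.card := rfl
  have hRd : (R.card : ℝ) ≤ d := by
    have := Finset.card_filter_le (Finset.range d)
      (fun r : ℕ => (d : ℤ) ∣ (r : ℤ) * ((r : ℤ) ^ 2 - 2))
    rw [Finset.card_range] at this
    exact_mod_cast this
  have hmain : ((S.card : ℝ)) - (rho d : ℝ) / d * N = ∑ r ∈ R,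
      ((((Finset.Ico a (a + N)).filter (fun n => n ≡ r [MOD d])).card : ℝ) - (N : ℝ) / d) := by
    rw [Finset.sum_sub_distrib, Finset.sum_const, nsmul_eq_mul, hcard, hrho]
    push_cast
    ring
  rw [hmain]
  calc |∑ r ∈ R, ((((Finset.Ico a (a + N)).filter (fun n => n ≡ r [MOD d])).card : ℝ)
          - (N : ℝ) / d)|
      ≤ ∑ r ∈ R, |((((Finset.Ico a (a + N)).filter (fun n => n ≡ r [MOD d])).card : ℝ)
          - (N : ℝ) / d)| := Finset.abs_sum_le_sum_abs _ _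
    _ ≤ ∑ _r ∈ R, (1 : ℝ) :=
        Finset.sum_le_sum fun r _ => Pool.Agent.H75.PS.card_modEq a N d r hd
    _ = R.card := by simp
    _ ≤ d := hRd

end Pool.Agent.H18.SR
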